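import Pool.Agent.N242.NT.Stm

set_option autoImplicit false

/-!
# Project NT: closed bounded convex sets in reflexive spaces have extreme points
-/

namespace Pool.Agent.N322.NT

open Pool.Agent.N242.NT Topology

universe u

theorem t_REF : S_REF.{u} := by
  intro X _ _ hsurj K hKc hKb hKv hKn
  have hcl : IsClosed (toWeakSpace ℝ X '' K) := by
    have h1 := hKv.toWeakSpace_closure (𝕜 := ℝ)
    rw [hKc.closure_eq] at h1
    rw [h1]
    exact isClosed_closure
  have hcomp : IsCompact (toWeakSpace ℝ X '' K) := by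
    rw [← hcl.closure_eq]
    apply NormedSpace.isCompact_closure_of_isBounded
    · rw [Set.preimage_image_eq _ (toWeakSpace ℝ X).injective]
      exact hKb
    · intro y _
      obtain ⟨x, hx⟩ := hsurj (StrongDual.toWeakDual.symm y)
      refine ⟨toWeakSpace ℝ X x, ?_⟩
      have h2 : NormedSpace.inclusionInDoubleDualWeak ℝ X (toWeakSpace ℝ X x) =
          StrongDual.toWeakDual (NormedSpace.inclusionInDoubleDual ℝ X x) := rfl
      rw [h2, hx]
      exact LinearEquiv.apply_symm_apply _ _
  haveI : LocallyConvexSpace ℝ (WeakSpace ℝ X) :=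
    inferInstanceAs (LocallyConvexSpace ℝ (WeakBilin (topDualPairing ℝ X).flip))
  obtain ⟨e, he⟩ := hcomp.extremePoints_nonempty (hKn.image _)
  rw [← image_extremePoints] at he
  obtain ⟨x, hx, -⟩ := he
  exact ⟨x, hx⟩

end Pool.Agent.N322.NT
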